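import Pool.Agent.Helper61.JackStmt.Trans

/-!
# Integrality of the integral forms of the Jack superpolynomials
-/

set_option autoImplicit false

open Pool.Agent.Helper61.JackStmt

namespace Pool.Agent.Results.MP_cf8419_co.JackSuperIntegral

/-- The coefficients `v_{ΛΩ}` of `J_Λ = v_Λ P_Λ = ∑ v_{ΛΩ} m_Ω` are polynomials `w Λ Ω` in `α`
with integer coefficients, for all superpartitions of all degrees `(n|m)`. The coefficients do not
depend on the number `N ≥ n + m` of the variables. -/
theorem result (n m : ℕ) : Finite (SuperPartition n m) ∧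
    ∃ w : SuperPartition n m → SuperPartition n m → Polynomial ℤ,
      (∀ Λ, w Λ Λ = vPol Λ) ∧ (∀ Λ Ω, w Λ Ω ≠ 0 → Dom Ω Λ) ∧
      ∀ N, n + m ≤ N → HasIntegralFormExt (xv N) (theta N) w :=
  main n m

end Pool.Agent.Results.MP_cf8419_co.JackSuperIntegral
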